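import Mathlib

namespace Pool.Agent.Results.MP_fefe6a_co.OrbitalSpread

open Finset

/-! ### Analysis -/

/-- binomial coefficient with a real upper entry -/
noncomputable def ch (y : ℝ) (k : ℕ) : ℝ := (∏ i ∈ range k, (y - i)) / k.factorial

theorem ch_nonneg {y : ℝ} {k : ℕ} (h : (k : ℝ) ≤ y + 1) : 0 ≤ ch y k := by
  unfold ch
  apply div_nonneg _ (by positivity)
  apply prod_nonneg
  intro i hi
  rw [mem_range] at hi
  have : (i : ℝ) + 1 ≤ k := by exact_mod_cast hi
  linarith

theorem prod_abs_mono {y : ℝ} {k m : ℕ} (h : y + 1 < k) (hkm : k ≤ m) :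
    |∏ i ∈ range k, (y - i)| ≤ |∏ i ∈ range m, (y - i)| := by
  induction m, hkm using Nat.le_induction with
  | base => exact le_rfl
  | succ m hm ih =>
    rw [prod_range_succ, abs_mul]
    refine ih.trans ?_
    have h1 : (k : ℝ) ≤ m := by exact_mod_cast hm
    have h2 : 1 ≤ |y - m| := by
      rw [abs_sub_comm, le_abs]
      left
      linarith
    nlinarith [abs_nonneg (∏ i ∈ range m, (y - (i : ℝ)))]

theorem ch_ratio {y : ℝ} {k m : ℕ} (h : y + 1 < k) (hkm : k ≤ m) :
    |ch y k| ≤ m.factorial * |ch y m| := by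
  unfold ch
  rw [abs_div, abs_div, Nat.abs_cast, Nat.abs_cast]
  have h1 := prod_abs_mono h hkm
  have h2 : (1 : ℝ) ≤ k.factorial := by exact_mod_cast Nat.one_le_iff_ne_zero.2 (Nat.factorial_ne_zero k)
  have h3 : (0 : ℝ) < m.factorial := by exact_mod_cast Nat.factorial_pos m
  rw [mul_div_cancel₀ _ h3.ne']
  exact (div_le_self (abs_nonneg _) h2).trans h1

theorem nocommon (m : ℕ) (hm : 3 ≤ m) (s : ℕ → ℝ) (hs : ∀ k, 0 ≤ s k) (h1 : 0 < s 1)
    (hsm : 0 < s m) :
    ∀ᶠ n : ℕ in Filter.atTop, ∀ x : ℝ, 2 ≤ x →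
      ¬ (∑ k ∈ range (m + 1), s k * ch (x - 1) k * (x - k) ^ n = 0 ∧
        ∑ k ∈ range (m + 1), k * (s k * ch (x - 1) k * (x - k) ^ n) = 0) := by
  obtain ⟨C, hC⟩ : ∃ C, C = ∑ k ∈ range (m + 1), s k * m.factorial / s m := ⟨_, rfl⟩
  have hCk : ∀ k ∈ range (m + 1), s k * m.factorial / s m ≤ C := by
    intro k hk
    rw [hC]
    exact single_le_sum (f := fun k => s k * (m.factorial : ℝ) / s m)
      (fun i _ => by have := hs i; positivity) hk
  have hC0 : 0 ≤ C := by
    rw [hC]
    exact sum_nonneg fun i _ => by have := hs i; positivity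
  have hmpos : (0 : ℝ) < m := by exact_mod_cast (show 0 < m by omega)
  have hr0 : (0 : ℝ) ≤ 1 - 1 / m := by
    rw [sub_nonneg, div_le_one hmpos]
    exact_mod_cast (show 1 ≤ m by omega)
  have hr1 : (1 : ℝ) - 1 / m < 1 := by
    have : (0 : ℝ) < 1 / m := by positivity
    linarith
  have hlim : Filter.Tendsto (fun n : ℕ => 2 * (m : ℝ) ^ 2 * (C * (1 - 1 / (m : ℝ)) ^ n))
      Filter.atTop (nhds 0) := by
    have := (tendsto_pow_atTop_nhds_zero_of_lt_one hr0 hr1).const_mul (2 * (m : ℝ) ^ 2 * C)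
    simpa [mul_assoc] using this
  filter_upwards [hlim.eventually (gt_mem_nhds (show (0 : ℝ) < 1 by norm_num))] with n hn
  intro x hx ⟨e0, e1⟩
  set v : ℕ → ℝ := fun k => s k * ch (x - 1) k * (x - k) ^ n with hv
  set ε := C * (1 - 1 / (m : ℝ)) ^ n with hε
  have hε0 : 0 ≤ ε := by positivity
  -- the terms with index at most `x` are nonnegative
  have hlow : ∀ k : ℕ, (k : ℝ) ≤ x → 0 ≤ v k := by
    intro k hk
    have : 0 ≤ ch (x - 1) k := ch_nonneg (by linarith)
    have h2 : (0 : ℝ) ≤ x - k := by linarith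
    have := hs k
    simp only [hv]
    positivity
  have hv1 : 0 < v 1 := by
    have : ch (x - 1) 1 = x - 1 := by simp [ch]
    simp only [hv, this]
    have h2 : 0 < x - 1 := by linarith
    push_cast
    positivity
  -- the middle terms are small
  have hmid : ∀ k : ℕ, k < m → x < k → |v k| ≤ ε * |v m| := by
    intro k hk hxk
    have hkm : (k : ℝ) + 1 ≤ m := by exact_mod_cast hk
    have hc := ch_ratio (y := x - 1) (k := k) (m := m) (by linarith) hk.le
    have hp : |x - (k : ℝ)| ^ n ≤ ((1 - 1 / (m : ℝ)) ^ n) * |x - (m : ℝ)| ^ n := by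
      rw [← mul_pow]
      apply pow_le_pow_left₀ (abs_nonneg _)
      rw [abs_sub_comm, abs_of_pos (show 0 < (k : ℝ) - x by linarith), abs_sub_comm,
        abs_of_pos (show 0 < (m : ℝ) - x by linarith), sub_mul, one_mul, one_div]
      have : (m : ℝ)⁻¹ * (m - x) ≤ 1 := by
        rw [inv_mul_le_iff₀ hmpos]
        linarith
      linarith
    simp only [hv, abs_mul, abs_pow, abs_of_nonneg (hs k), abs_of_pos hsm]
    have hk2 := hCk k (mem_range.2 (by omega))
    rw [div_le_iff₀ hsm] at hk2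
    calc s k * |ch (x - 1) k| * |x - (k : ℝ)| ^ n
        ≤ s k * (m.factorial * |ch (x - 1) m|) *
            (((1 - 1 / (m : ℝ)) ^ n) * |x - (m : ℝ)| ^ n) := by
          apply mul_le_mul _ hp (by positivity)
          · have := hs k; positivity
          · exact mul_le_mul_of_nonneg_left hc (hs k)
      _ = (s k * m.factorial) * (|ch (x - 1) m| *
            (((1 - 1 / (m : ℝ)) ^ n) * |x - (m : ℝ)| ^ n)) := by ring
      _ ≤ (C * s m) * (|ch (x - 1) m| *
            (((1 - 1 / (m : ℝ)) ^ n) * |x - (m : ℝ)| ^ n)) := by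
          apply mul_le_mul_of_nonneg_right hk2
          positivity
      _ = ε * (s m * |ch (x - 1) m| * |x - (m : ℝ)| ^ n) := by rw [hε]; ring
  rw [sum_range_succ] at e0 e1
  have e2 : ∑ k ∈ range m, ((m : ℝ) - k) * v k = 0 := by
    have : ∑ k ∈ range m, ((m : ℝ) - k) * v k
        = m * (∑ k ∈ range m, v k + v m) - (∑ k ∈ range m, k * v k + m * v m) := by
      rw [mul_add, mul_sum]
      have : ∑ k ∈ range m, ((m : ℝ) - k) * v k = ∑ k ∈ range m, (m * v k) - ∑ k ∈ range m, k * v k := by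
        rw [← sum_sub_distrib]
        exact sum_congr rfl fun k _ => by ring
      rw [this]
      ring
    rw [this]
    simp only [hv]
    rw [e0, e1]
    ring
  set J := (range m).filter (fun k : ℕ => (k : ℝ) ≤ x) with hJ
  set I := (range m).filter (fun k : ℕ => ¬ (k : ℝ) ≤ x) with hI
  have hsplit : ∀ f : ℕ → ℝ, ∑ k ∈ range m, f k = ∑ k ∈ J, f k + ∑ k ∈ I, f k := fun f =>
    (sum_filter_add_sum_filter_not _ _ _).symm
  set L := ∑ k ∈ J, ((m : ℝ) - k) * v k with hL
  have hJL : ∑ k ∈ J, v k ≤ L := by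
    apply sum_le_sum
    intro k hk
    rw [hJ, mem_filter, mem_range] at hk
    have : (k : ℝ) + 1 ≤ m := by exact_mod_cast hk.1
    nlinarith [hlow k hk.2]
  have hJ0 : 0 ≤ ∑ k ∈ J, v k := sum_nonneg fun k hk => hlow k (mem_filter.1 hk).2
  have hLpos : 0 < L := by
    have : ((m : ℝ) - (1 : ℕ)) * v 1 ≤ L := by
      apply single_le_sum (f := fun k : ℕ => ((m : ℝ) - k) * v k)
      · intro k hk
        rw [hJ, mem_filter, mem_range] at hk
        have h3 : (k : ℝ) + 1 ≤ m := by exact_mod_cast hk.1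
        exact mul_nonneg (by linarith) (hlow k hk.2)
      · rw [hJ, mem_filter, mem_range]
        exact ⟨by omega, by push_cast; linarith⟩
    have h4 : (3 : ℝ) ≤ m := by exact_mod_cast hm
    push_cast at this
    have : 0 < ((m : ℝ) - 1) * v 1 := mul_pos (by linarith) hv1
    linarith
  have hIb : ∀ f : ℕ → ℝ, (∀ k ∈ I, |f k| ≤ m * |v k|) → |∑ k ∈ I, f k| ≤ m * (m * (ε * |v m|)) := by
    intro f hf
    calc |∑ k ∈ I, f k| ≤ ∑ k ∈ I, |f k| := abs_sum_le_sum_abs _ _
      _ ≤ ∑ k ∈ I, m * (ε * |v m|) := by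
          apply sum_le_sum
          intro k hk
          refine (hf k hk).trans ?_
          rw [hI, mem_filter, mem_range] at hk
          exact mul_le_mul_of_nonneg_left (hmid k hk.1 (not_le.1 hk.2)) hmpos.le
      _ = I.card * (m * (ε * |v m|)) := by rw [sum_const, nsmul_eq_mul]
      _ ≤ m * (m * (ε * |v m|)) := by
          apply mul_le_mul_of_nonneg_right _ (by positivity)
          have : I.card ≤ m := (card_filter_le _ _).trans (card_range m).le
          exact_mod_cast this
  have hm1 : (1 : ℝ) ≤ m := by exact_mod_cast (show 1 ≤ m by omega)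
  have hI1 := hIb v (fun k _ => le_mul_of_one_le_left (abs_nonneg _) hm1)
  have hI2 := hIb (fun k => ((m : ℝ) - k) * v k) (fun k hk => by
    rw [hI, mem_filter, mem_range] at hk
    have h3 : (k : ℝ) + 1 ≤ m := by exact_mod_cast hk.1
    rw [abs_mul]
    apply mul_le_mul_of_nonneg_right _ (abs_nonneg _)
    rw [abs_of_nonneg (by linarith)]
    have : (0 : ℝ) ≤ k := Nat.cast_nonneg k
    linarith)
  have hvm : |v m| ≤ L + m * (m * (ε * |v m|)) := by
    have : v m = - (∑ k ∈ J, v k) - ∑ k ∈ I, v k := by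
      have := hsplit v
      simp only [hv] at this e0 ⊢
      linarith
    rw [this]
    rw [this] at hI1
    calc |-(∑ k ∈ J, v k) - ∑ k ∈ I, v k| ≤ |-(∑ k ∈ J, v k)| + |∑ k ∈ I, v k| := abs_sub _ _
      _ = ∑ k ∈ J, v k + |∑ k ∈ I, v k| := by rw [abs_neg, abs_of_nonneg hJ0]
      _ ≤ _ := add_le_add hJL hI1
  have hLle : L ≤ m * (m * (ε * |v m|)) := by
    have := hsplit (fun k => ((m : ℝ) - k) * v k)
    rw [e2] at this
    have h5 : L = - ∑ k ∈ I, ((m : ℝ) - k) * v k := by linarith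
    rw [h5]
    exact (neg_le_abs _).trans hI2
  have hvm0 := abs_nonneg (v m)
  have hn' : 2 * ((m : ℝ) * (m * ε)) < 1 := by
    calc 2 * ((m : ℝ) * (m * ε)) = 2 * (m : ℝ) ^ 2 * ε := by ring
      _ < 1 := hn
  have hassoc : (m : ℝ) * (m * (ε * |v m|)) = (m * (m * ε)) * |v m| := by ring
  rw [hassoc] at hvm hLle
  have h6 : (1 - 2 * ((m : ℝ) * (m * ε))) * |v m| ≤ 0 := by linarith
  have h7 : |v m| ≤ 0 := by
    by_contra hc
    rw [not_le] at hc
    have : 0 < (1 - 2 * ((m : ℝ) * (m * ε))) * |v m| := mul_pos (by linarith) hc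
    linarith
  have h8 : |v m| = 0 := le_antisymm h7 hvm0
  rw [h8, mul_zero] at hLle
  linarith

/-- if the last term dominates and is negative, the sum is eventually negative -/
theorem eventually_neg (m e : ℕ) (c : ℕ → ℝ) (x : ℝ) (hx : ∀ k < m, |x - k| < m - x)
    (hxm : 0 < m - x) (hneg : c m * (x - m) ^ e < 0) :
    ∀ᶠ l : ℕ in Filter.atTop, ∑ k ∈ range (m + 1), c k * (x - k) ^ (2 * l + e) < 0 := by
  have hlim : Filter.Tendsto (fun l : ℕ => ∑ k ∈ range (m + 1),
      c k * (x - k) ^ e * (((x - k) / (m - x)) ^ 2) ^ l) Filter.atTop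
      (nhds (∑ k ∈ range (m + 1), if k = m then c m * (x - m) ^ e else 0)) := by
    apply tendsto_finsetSum
    intro k hk
    rw [mem_range] at hk
    by_cases hkm : k = m
    · subst hkm
      rw [if_pos rfl]
      have : ((x - k) / (k - x)) ^ 2 = 1 := by
        rw [div_pow, show (x - (k : ℝ)) ^ 2 = (k - x) ^ 2 by ring]
        exact div_self (by positivity)
      rw [this]
      simp
    · rw [if_neg hkm]
      have h1 := hx k (by omega)
      have : Filter.Tendsto (fun l : ℕ => (((x - k) / (m - x)) ^ 2) ^ l) Filter.atTop (nhds 0) := by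
        apply tendsto_pow_atTop_nhds_zero_of_lt_one (sq_nonneg _)
        rw [sq_lt_one_iff_abs_lt_one, abs_div, abs_of_pos hxm, div_lt_one hxm]
        exact h1
      simpa using this.const_mul (c k * (x - k) ^ e)
  rw [sum_ite_eq' (range (m + 1)) m (fun _ => c m * (x - m) ^ e), if_pos (by simp)] at hlim
  filter_upwards [hlim.eventually (gt_mem_nhds hneg)] with l hl
  have : ∑ k ∈ range (m + 1), c k * (x - k) ^ (2 * l + e)
      = (m - x) ^ (2 * l) * ∑ k ∈ range (m + 1), c k * (x - k) ^ e * (((x - k) / (m - x)) ^ 2) ^ l := by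
    rw [mul_sum]
    apply sum_congr rfl
    intro k _
    rw [← pow_mul, div_pow, pow_add]
    field_simp
  rw [this]
  exact mul_neg_of_pos_of_neg (by positivity) hl

/-- rising factorial over `p!` -/
noncomputable def mc (c : ℝ) (p : ℕ) : ℝ := (∏ i ∈ range p, (c + i)) / p.factorial

theorem ratio_tendsto (a b : ℝ) (ha : -1 < a) (ha0 : a < 0) (hb : b < a) :
    Filter.Tendsto (fun p : ℕ => ∏ i ∈ range p, ((b + (i + 1)) / (a + (i + 1))))
      Filter.atTop (nhds 0) := by
  obtain ⟨K, hK⟩ := exists_nat_gt (-b)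
  set t : ℕ → ℝ := fun i => (b + (i + 1)) / (a + (i + 1)) with ht
  have hstep : ∀ i : ℕ, K ≤ i → 0 ≤ t i ∧ t i ≤ Real.exp (-(a - b) * (1 / (i + 1))) := by
    intro i hi
    have hi' : (K : ℝ) ≤ i := by exact_mod_cast hi
    have hi0 : (0 : ℝ) ≤ i := Nat.cast_nonneg i
    have hpos : 0 < a + (i + 1) := by linarith
    refine ⟨div_nonneg (by linarith) hpos.le, ?_⟩
    have h1 : t i = 1 - (a - b) / (a + (i + 1)) := by
      rw [ht]
      field_simp
      ring
    have h2 : (a - b) * (1 / ((i : ℝ) + 1)) ≤ (a - b) / (a + (i + 1)) := by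
      rw [mul_one_div]
      apply div_le_div_of_nonneg_left (by linarith) hpos (by linarith)
    calc t i ≤ -(a - b) * (1 / (i + 1)) + 1 := by rw [h1]; linarith
      _ ≤ Real.exp (-(a - b) * (1 / (i + 1))) := Real.add_one_le_exp _
  set C := |∏ i ∈ range K, t i| * Real.exp ((a - b) * ∑ i ∈ range K, 1 / ((i : ℝ) + 1)) with hC
  have hbound : ∀ p, K ≤ p → |∏ i ∈ range p, t i|
      ≤ C * Real.exp (-(a - b) * ∑ i ∈ range p, 1 / ((i : ℝ) + 1)) := by
    intro p hp
    induction p, hp using Nat.le_induction with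
    | base =>
      rw [hC, mul_assoc, ← Real.exp_add]
      rw [show (a - b) * ∑ i ∈ range K, 1 / ((i : ℝ) + 1)
        + -(a - b) * ∑ i ∈ range K, 1 / ((i : ℝ) + 1) = 0 by ring, Real.exp_zero, mul_one]
    | succ p hp ih =>
      rw [prod_range_succ, abs_mul, sum_range_succ, mul_add, Real.exp_add, ← mul_assoc,
        abs_of_nonneg (hstep p hp).1]
      exact mul_le_mul ih (hstep p hp).2 (hstep p hp).1 (by positivity)
  have hexp : Filter.Tendsto (fun p : ℕ => C * Real.exp (-(a - b) * ∑ i ∈ range p, 1 / ((i : ℝ) + 1)))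
      Filter.atTop (nhds 0) := by
    have h1 : Filter.Tendsto (fun p : ℕ => -(a - b) * ∑ i ∈ range p, 1 / ((i : ℝ) + 1))
        Filter.atTop Filter.atBot :=
      Real.tendsto_sum_range_one_div_nat_succ_atTop.const_mul_atTop_of_neg (by linarith)
    have := (Real.tendsto_exp_atBot.comp h1).const_mul C
    simpa using this
  apply squeeze_zero_norm' _ hexp
  filter_upwards [Filter.eventually_ge_atTop K] with p hp
  exact hbound p hp

theorem exists_even (a b c₁ c₂ : ℝ) (ha : -1 < a) (ha0 : a < 0) (hb : b < a) (h1 : 0 < c₁)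
    (h2 : 0 < c₂) : ∃ p, Even p ∧ 0 < p ∧ c₁ * mc a p + c₂ * mc b p < 0 := by
  have hlim := ((ratio_tendsto a b ha ha0 hb).abs).const_mul (c₂ * |b| / (c₁ * |a|))
  rw [abs_zero, mul_zero] at hlim
  obtain ⟨P, hP⟩ := Filter.eventually_atTop.1 (hlim.eventually (gt_mem_nhds zero_lt_one))
  refine ⟨(2 * P + 1) + 1, ⟨P + 1, by ring⟩, by omega, ?_⟩
  have hp := hP (2 * P + 1) (by omega)
  set p := 2 * P + 1 with hpdef
  have hprod : ∏ i ∈ range p, ((b + ((i : ℝ) + 1)) / (a + (i + 1)))
      = (∏ i ∈ range p, (b + ((i : ℝ) + 1))) / ∏ i ∈ range p, (a + ((i : ℝ) + 1)) :=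
    prod_div_distrib _ _
  have hapos : 0 < ∏ i ∈ range p, (a + ((i : ℝ) + 1)) := by
    apply prod_pos
    intro i _
    have : (0 : ℝ) ≤ i := Nat.cast_nonneg i
    linarith
  rw [hprod, abs_div, abs_of_pos hapos] at hp
  have hmca : ∀ c : ℝ, mc c (p + 1) = (∏ i ∈ range p, (c + ((i : ℝ) + 1))) * c / (p + 1).factorial := by
    intro c
    rw [mc, prod_range_succ']
    push_cast
    simp
  rw [hmca, hmca]
  have hf : (0 : ℝ) < (p + 1).factorial := by exact_mod_cast Nat.factorial_pos _
  have key : c₁ * ((∏ i ∈ range p, (a + ((i : ℝ) + 1))) * a)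
      + c₂ * ((∏ i ∈ range p, (b + ((i : ℝ) + 1))) * b) < 0 := by
    have ha' : |a| = -a := abs_of_neg ha0
    have hcpos : 0 < c₁ * |a| := mul_pos h1 (abs_pos.2 ha0.ne)
    have h3 : c₂ * |b| * |∏ i ∈ range p, (b + ((i : ℝ) + 1))|
        < c₁ * |a| * ∏ i ∈ range p, (a + ((i : ℝ) + 1)) := by
      rw [div_mul_div_comm, div_lt_one (mul_pos hcpos hapos)] at hp
      exact hp
    have h4 : c₂ * ((∏ i ∈ range p, (b + ((i : ℝ) + 1))) * b)
        ≤ c₂ * |b| * |∏ i ∈ range p, (b + ((i : ℝ) + 1))| := by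
      rw [mul_assoc, ← abs_mul]
      apply mul_le_mul_of_nonneg_left _ h2.le
      rw [mul_comm b]
      exact le_abs_self _
    rw [ha'] at h3
    linarith
  rw [mul_div_assoc', mul_div_assoc', ← add_div]
  exact div_neg_of_neg_of_pos key hf

/-- crossing lemma -/
theorem crossing (A B : ℝ → ℝ) (hA : Continuous A) (hB : Continuous B) (xb xe : ℝ) (hbe : xb < xe)
    (hAb : A xb < 0) (hBb : B xb < 0) (hAe : 0 ≤ A xe)
    (hno : ∀ x, xb ≤ x → ¬ (A x = 0 ∧ B x = 0)) :
    ∃ x, xb ≤ x ∧ ((-1 < A x ∧ A x < 0 ∧ B x < A x) ∨ (-1 < B x ∧ B x < 0 ∧ A x < B x)) := by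
  set M : ℝ → ℝ := fun x => max (A x) (B x) with hM
  have hMc : Continuous M := hA.max hB
  set S : Set ℝ := Set.Icc xb xe ∩ {x | 0 ≤ M x} with hS
  have hSc : IsCompact S := isCompact_Icc.inter_right (isClosed_le continuous_const hMc)
  have hSn : S.Nonempty := ⟨xe, ⟨hbe.le, le_rfl⟩, le_max_of_le_left hAe⟩
  obtain ⟨c, hcS, hcmin⟩ := hSc.exists_isLeast hSn
  have hMb : M xb < 0 := max_lt hAb hBb
  have hbc : xb < c := by
    rcases hcS.1.1.lt_or_eq with h | h
    · exact h
    · exfalso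
      have := hcS.2
      rw [← h] at this
      exact absurd this (not_le.2 hMb)
  have hlt : ∀ x, xb ≤ x → x < c → M x < 0 := by
    intro x h1 h2
    by_contra hc
    rw [not_lt] at hc
    exact absurd (hcmin ⟨⟨h1, h2.le.trans hcS.1.2⟩, hc⟩) (not_le.2 h2)
  have hMc0 : M c ≤ 0 := by
    have hmem : c ∈ closure (Set.Ico xb c) := by
      rw [closure_Ico hbc.ne]
      exact ⟨hbc.le, le_rfl⟩
    have hcl : IsClosed {x | M x ≤ 0} := isClosed_le hMc continuous_const
    exact (hcl.closure_subset_iff.2 (fun x hx => (hlt x hx.1 hx.2).le)) hmem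
  have hM0 : M c = 0 := le_antisymm hMc0 hcS.2
  -- a point slightly to the left of `c`
  have hleft : ∀ U ∈ nhds c, ∃ x ∈ U, xb ≤ x ∧ x < c := by
    intro U hU
    have : U ∩ Set.Ico xb c ∈ nhdsWithin c (Set.Iio c) := by
      apply Filter.inter_mem (mem_nhdsWithin_of_mem_nhds hU)
      exact Ico_mem_nhdsLT hbc
    obtain ⟨x, hx⟩ := Filter.nonempty_of_mem this
    exact ⟨x, hx.1, hx.2.1, hx.2.2⟩
  have hAc : A c ≤ 0 := (le_max_left _ _).trans hMc0
  have hBc : B c ≤ 0 := (le_max_right _ _).trans hMc0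
  rcases max_choice (A c) (B c) with h | h
  · have hA0 : A c = 0 := by rw [← h]; exact hM0
    have hB0 : B c < 0 := lt_of_le_of_ne hBc fun hb => hno c hbc.le ⟨hA0, hb⟩
    obtain ⟨x, ⟨hx1, hx2⟩, hx3, hx4⟩ := hleft ({x | -1 < A x} ∩ {x | B x < A x})
      (Filter.inter_mem
        (hA.continuousAt.eventually (lt_mem_nhds (show -1 < A c by rw [hA0]; norm_num)))
        ((isOpen_lt hB hA).mem_nhds (show B c < A c by rw [hA0]; exact hB0)))
    have := hlt x hx3 hx4
    exact ⟨x, hx3, Or.inl ⟨hx1, lt_of_le_of_lt (le_max_left _ _) this, hx2⟩⟩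
  · have hB0 : B c = 0 := by rw [← h]; exact hM0
    have hA0 : A c < 0 := lt_of_le_of_ne hAc fun ha => hno c hbc.le ⟨ha, hB0⟩
    obtain ⟨x, ⟨hx1, hx2⟩, hx3, hx4⟩ := hleft ({x | -1 < B x} ∩ {x | A x < B x})
      (Filter.inter_mem
        (hB.continuousAt.eventually (lt_mem_nhds (show -1 < B c by rw [hB0]; norm_num)))
        ((isOpen_lt hA hB).mem_nhds (show A c < B c by rw [hB0]; exact hA0)))
    have := hlt x hx3 hx4
    exact ⟨x, hx3, Or.inr ⟨hx1, lt_of_le_of_lt (le_max_right _ _) this, hx2⟩⟩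

/-! ### Counting the extensions of a colouring to one copy -/

/-- number of surjections from `m` points onto `k` points -/
noncomputable def sj (m k : ℕ) : ℕ := Nat.card {f : Fin m → Fin k // Function.Surjective f}

theorem card_image_eq {m q : ℕ} (S : Finset (Fin q)) :
    (univ.filter (fun f : Fin m → Fin q => univ.image f = S)).card = sj m S.card := by
  classical
  rw [sj, ← Fintype.card_subtype, ← Nat.card_eq_fintype_card]
  let e : S ≃ Fin S.card := S.equivFin
  refine Nat.card_congr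
    { toFun := fun f => ⟨fun j => e ⟨f.1 j,
          (Finset.ext_iff.1 f.2 _).1 (mem_image_of_mem _ (mem_univ j))⟩, ?_⟩
      invFun := fun g => ⟨fun j => (e.symm (g.1 j)).1, ?_⟩
      left_inv := ?_
      right_inv := ?_ }
  · intro t
    have h : (e.symm t).1 ∈ univ.image f.1 := by
      rw [f.2]
      exact (e.symm t).2
    obtain ⟨j, _, hj⟩ := mem_image.1 h
    refine ⟨j, ?_⟩
    have : (⟨f.1 j, by rw [hj]; exact (e.symm t).2⟩ : S) = e.symm t := Subtype.ext hj
    exact (congrArg e this).trans (e.apply_symm_apply t)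
  · ext c
    simp only [mem_image, mem_univ, true_and]
    constructor
    · rintro ⟨j, rfl⟩
      exact (e.symm (g.1 j)).2
    · intro hc
      obtain ⟨j, hj⟩ := g.2 (e ⟨c, hc⟩)
      exact ⟨j, by rw [hj, Equiv.symm_apply_apply]⟩
  · intro f
    apply Subtype.ext
    funext j
    simp
  · intro g
    apply Subtype.ext
    funext j
    simp

/-- The ways to colour one copy: `a` is the colour of `u`, `b` is the colour of `v`. -/
def Ext (m n q : ℕ) (a b : Fin q) : Finset ((Fin m → Fin q) × (Option (Fin n) → Fin q)) :=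
  univ.filter fun fg => (∀ j, fg.1 j ≠ b) ∧ fg.2 none ≠ a ∧ ∀ j t, fg.1 j ≠ fg.2 t

theorem card_X (m n q : ℕ) (a b : Fin q) : (Ext m n q a b).card =
    ∑ S ∈ (univ.erase b).powerset, sj m S.card * ((q - (insert a S).card) * (q - S.card) ^ n) := by
  classical
  have h1 : (Ext m n q a b).card = ∑ f : Fin m → Fin q,
      if b ∉ univ.image f then (q - (insert a (univ.image f)).card) * (q - (univ.image f).card) ^ n
      else 0 := by
    rw [Ext, card_filter, Fintype.sum_prod_type]
    apply sum_congr rfl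
    intro f _
    by_cases hb : b ∈ univ.image f
    · rw [if_neg (by simpa using hb)]
      apply sum_eq_zero
      intro g _
      rw [if_neg]
      rintro ⟨h, _⟩
      obtain ⟨j, _, hj⟩ := mem_image.1 hb
      exact h j hj
    · rw [if_pos hb, ← card_filter]
      have : univ.filter (fun g : Option (Fin n) → Fin q =>
          (∀ j, f j ≠ b) ∧ g none ≠ a ∧ ∀ j t, f j ≠ g t)
          = Fintype.piFinset (fun t : Option (Fin n) =>
            match t with
            | none => (insert a (univ.image f))ᶜ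
            | some _ => (univ.image f)ᶜ) := by
        ext g
        simp only [mem_filter, mem_univ, true_and, Fintype.mem_piFinset]
        constructor
        · rintro ⟨_, h2, h3⟩ t
          rcases t with _ | t
          · simp only [mem_compl, mem_insert, mem_image, mem_univ, true_and, not_or, not_exists]
            exact ⟨h2, fun j => h3 j none⟩
          · simp only [mem_compl, mem_image, mem_univ, true_and, not_exists]
            exact fun j => h3 j _
        · intro h
          refine ⟨?_, ?_, ?_⟩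
          · intro j hj
            exact hb (mem_image.2 ⟨j, mem_univ j, hj⟩)
          · intro h'
            have := h none
            rw [mem_compl] at this
            exact this (by rw [h']; exact mem_insert_self _ _)
          · intro j t hjt
            have := h t
            rcases t with _ | t
            · rw [mem_compl] at this
              exact this (by rw [← hjt]; exact mem_insert_of_mem (mem_image_of_mem _ (mem_univ j)))
            · rw [mem_compl] at this
              exact this (by rw [← hjt]; exact mem_image_of_mem _ (mem_univ j))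
      rw [this, Fintype.card_piFinset, Fintype.prod_option]
      simp only [card_compl, Fintype.card_fin, prod_const, card_univ]
  rw [h1]
  have h2 : ∀ f : Fin m → Fin q, (if b ∉ univ.image f then
      (q - (insert a (univ.image f)).card) * (q - (univ.image f).card) ^ n else 0)
      = ∑ S ∈ (univ.erase b).powerset, if univ.image f = S then
        (q - (insert a S).card) * (q - S.card) ^ n else 0 := by
    intro f
    by_cases hb : b ∈ univ.image f
    · rw [if_neg (by simpa using hb)]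
      symm
      apply sum_eq_zero
      intro S hS
      rw [if_neg]
      rintro rfl
      exact notMem_erase b univ (mem_powerset.1 hS hb)
    · rw [if_pos hb, sum_ite_eq, if_pos]
      rw [mem_powerset]
      intro c hc
      rw [mem_erase]
      exact ⟨fun h => hb (h ▸ hc), mem_univ c⟩
  rw [sum_congr rfl (fun f _ => h2 f), sum_comm]
  apply sum_congr rfl
  intro S _
  rw [← card_image_eq, card_filter, sum_mul]
  apply sum_congr rfl
  intro f _
  split_ifs <;> simp

theorem sj_eq_zero {m k : ℕ} (h : m < k) : sj m k = 0 := by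
  rw [sj, Nat.card_eq_zero]
  left
  refine ⟨fun f => ?_⟩
  have := Fintype.card_le_of_surjective f.1 f.2
  simp only [Fintype.card_fin] at this
  omega

theorem sj_zero {m : ℕ} (h : 0 < m) : sj m 0 = 0 := by
  rw [sj, Nat.card_eq_zero]
  left
  exact ⟨fun f => (f.1 ⟨0, h⟩).elim0⟩

theorem sj_one {m : ℕ} (h : 0 < m) : 0 < sj m 1 := by
  rw [sj, Nat.card_pos_iff]
  refine ⟨⟨⟨fun _ => 0, fun y => ⟨⟨0, h⟩, Subsingleton.elim _ _⟩⟩⟩, inferInstance⟩

theorem sj_self (m : ℕ) : 0 < sj m m := by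
  rw [sj, Nat.card_pos_iff]
  exact ⟨⟨⟨id, Function.surjective_id⟩⟩, inferInstance⟩

theorem ch_nat (a k : ℕ) : ch (a : ℝ) k = a.choose k := by
  rw [ch, ← descPochhammer_eval_eq_prod_range, descPochhammer_eval_eq_descFactorial,
    Nat.descFactorial_eq_factorial_mul_choose, Nat.cast_mul]
  field_simp

theorem ext_sum {m q : ℕ} (F : ℕ → ℝ) (h1 : ∀ k, m < k → F k = 0) (h2 : ∀ k, q ≤ k → F k = 0) :
    ∑ k ∈ range q, F k = ∑ k ∈ range (m + 1), F k := by
  have e1 : ∑ k ∈ range q, F k = ∑ k ∈ range (q + (m + 1)), F k :=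
    sum_subset (fun k hk => mem_range.2 (by have := mem_range.1 hk; omega))
      (fun k _ hk => h2 k (by rw [mem_range] at hk; omega))
  have e2 : ∑ k ∈ range (m + 1), F k = ∑ k ∈ range (q + (m + 1)), F k :=
    sum_subset (fun k hk => mem_range.2 (by have := mem_range.1 hk; omega))
      (fun k _ hk => h1 k (by rw [mem_range] at hk; omega))
  rw [e1, e2]

/-- number of extensions when `u` and `v` have the same colour -/
noncomputable def fA (m n : ℕ) (x : ℝ) : ℝ :=
  ∑ k ∈ range (m + 1), sj m k * ch (x - 1) k * (x - k - 1) * (x - k) ^ n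

/-- number of extensions when `u` and `v` have different colours -/
noncomputable def fB (m n : ℕ) (x : ℝ) : ℝ :=
  ∑ k ∈ range (m + 1), sj m k * (ch (x - 2) k * (x - k - 1) + ch (x - 2) (k - 1) * (x - k)) *
    (x - k) ^ n

theorem card_X_same (m n q : ℕ) (b : Fin q) : ((Ext m n q b b).card : ℝ) = fA m n q := by
  have hq : 0 < q := b.pos
  have h1 : (Ext m n q b b).card = ∑ S ∈ (univ.erase b).powerset,
      (fun k => sj m k * ((q - (k + 1)) * (q - k) ^ n)) S.card := by
    rw [card_X]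
    apply sum_congr rfl
    intro S hS
    have : b ∉ S := fun h => notMem_erase b univ (mem_powerset.1 hS h)
    rw [card_insert_of_notMem this]
  rw [h1, sum_powerset_apply_card (fun k => sj m k * ((q - (k + 1)) * (q - k) ^ n))]
  have hc : (univ.erase b : Finset (Fin q)).card = q - 1 := by
    rw [card_erase_of_mem (mem_univ b), card_univ, Fintype.card_fin]
  rw [hc, Nat.sub_add_cancel hq, fA, ← ext_sum (q := q)]
  · rw [Nat.cast_sum]
    apply sum_congr rfl
    intro k hk
    rw [mem_range] at hk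
    have e1 : (q : ℝ) - 1 = ((q - 1 : ℕ) : ℝ) := by rw [Nat.cast_sub hq]; simp
    rw [e1, ch_nat, smul_eq_mul, Nat.cast_mul, Nat.cast_mul, Nat.cast_mul, Nat.cast_pow,
      Nat.cast_sub (show k + 1 ≤ q by omega), Nat.cast_sub (show k ≤ q by omega)]
    push_cast
    ring
  · intro k hk
    rw [sj_eq_zero hk]
    simp
  · intro k hk
    have e1 : (q : ℝ) - 1 = ((q - 1 : ℕ) : ℝ) := by rw [Nat.cast_sub hq]; simp
    rw [e1, ch_nat, Nat.choose_eq_zero_of_lt (by omega)]
    simp

theorem card_X_diff (m n q : ℕ) (hm : 0 < m) (a b : Fin q) (hab : a ≠ b) :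
    ((Ext m n q a b).card : ℝ) = fB m n q := by
  have hq : 2 ≤ q := by
    have h1 := a.2
    have h2 := b.2
    have : a.1 ≠ b.1 := fun h => hab (Fin.ext h)
    omega
  have hins : (univ.erase b : Finset (Fin q)) = insert a ((univ.erase b).erase a) :=
    (insert_erase (mem_erase.2 ⟨hab, mem_univ a⟩)).symm
  have h1 : (Ext m n q a b).card = ∑ S ∈ ((univ.erase b).erase a).powerset,
        (fun k => sj m k * ((q - (k + 1)) * (q - k) ^ n)) S.card
      + ∑ S ∈ ((univ.erase b).erase a).powerset,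
        (fun k => sj m (k + 1) * ((q - (k + 1)) * (q - (k + 1)) ^ n)) S.card := by
    rw [card_X, hins, sum_powerset_insert (notMem_erase a _)]
    congr 1
    · apply sum_congr (by rw [← hins])
      intro S hS
      have : a ∉ S := fun h => notMem_erase a _ (mem_powerset.1 hS h)
      rw [card_insert_of_notMem this]
    · apply sum_congr (by rw [← hins])
      intro S hS
      have : a ∉ S := fun h => notMem_erase a _ (mem_powerset.1 hS h)
      rw [insert_idem, card_insert_of_notMem this]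
  rw [h1, sum_powerset_apply_card (fun k => sj m k * ((q - (k + 1)) * (q - k) ^ n)),
    sum_powerset_apply_card (fun k => sj m (k + 1) * ((q - (k + 1)) * (q - (k + 1)) ^ n))]
  have hc : ((univ.erase b).erase a : Finset (Fin q)).card = q - 2 := by
    rw [card_erase_of_mem (mem_erase.2 ⟨hab, mem_univ a⟩), card_erase_of_mem (mem_univ b),
      card_univ, Fintype.card_fin]
    omega
  have e1 : (q : ℝ) - 2 = ((q - 2 : ℕ) : ℝ) := by rw [Nat.cast_sub hq]; simp
  have hsplit : fB m n q = ∑ k ∈ range (m + 1), sj m k * ch ((q : ℝ) - 2) k * ((q : ℝ) - k - 1) *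
        ((q : ℝ) - k) ^ n
      + ∑ k ∈ range (m + 1), sj m k * ch ((q : ℝ) - 2) (k - 1) * ((q : ℝ) - k) * ((q : ℝ) - k) ^ n := by
    rw [fB, ← sum_add_distrib]
    exact sum_congr rfl fun k _ => by ring
  rw [hc, hsplit, Nat.cast_add]
  congr 1
  · rw [← ext_sum (q := q - 2 + 1)]
    · rw [Nat.cast_sum]
      apply sum_congr rfl
      intro k hk
      rw [mem_range] at hk
      rw [e1, ch_nat, smul_eq_mul, Nat.cast_mul, Nat.cast_mul, Nat.cast_mul, Nat.cast_pow,
        Nat.cast_sub (show k + 1 ≤ q by omega), Nat.cast_sub (show k ≤ q by omega)]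
      push_cast
      ring
    · intro k hk
      rw [sj_eq_zero hk]
      simp
    · intro k hk
      rw [e1, ch_nat, Nat.choose_eq_zero_of_lt (by omega)]
      simp
  · rw [← ext_sum (q := q - 2 + 1 + 1)]
    · rw [sum_range_succ' (fun k : ℕ => (sj m k : ℝ) * ch ((q : ℝ) - 2) (k - 1) *
        ((q : ℝ) - k) * ((q : ℝ) - k) ^ n), sj_zero hm, Nat.cast_zero, zero_mul, zero_mul, zero_mul,
        add_zero, Nat.cast_sum]
      apply sum_congr rfl
      intro k hk
      rw [mem_range] at hk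
      rw [e1, Nat.add_sub_cancel, ch_nat, smul_eq_mul, Nat.cast_mul, Nat.cast_mul, Nat.cast_mul,
        Nat.cast_pow,
        Nat.cast_sub (show k + 1 ≤ q by omega)]
      push_cast
      ring
    · intro k hk
      rw [sj_eq_zero hk]
      simp
    · intro k hk
      rw [e1, ch_nat, Nat.choose_eq_zero_of_lt (by omega)]
      simp

/-! ### The two counting functions as polynomials -/

theorem ch_rel (y : ℝ) (k : ℕ) : y * ch (y - 1) k = (y - k) * ch y k := by
  have h : y * ∏ i ∈ range k, (y - 1 - i) = (∏ i ∈ range k, (y - i)) * (y - k) := by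
    rw [← prod_range_succ, prod_range_succ', Nat.cast_zero, sub_zero, mul_comm]
    congr 1
    exact prod_congr rfl fun i _ => by push_cast; ring
  rw [ch, ch, mul_div_assoc', h]
  ring

theorem ch_succ (y : ℝ) (k : ℕ) : ((k : ℝ) + 1) * ch y (k + 1) = y * ch (y - 1) k := by
  rw [ch_rel, ch, ch, prod_range_succ, Nat.factorial_succ]
  have : (k.factorial : ℝ) ≠ 0 := by exact_mod_cast Nat.factorial_ne_zero k
  push_cast
  field_simp

theorem fB_rel (m n : ℕ) (hm : 0 < m) (x : ℝ) : (x - 1) * fB m n x =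
    ∑ k ∈ range (m + 1), sj m k * ch (x - 1) k * ((x - 1) * (x - k - 1) + k) * (x - k) ^ n := by
  rw [fB, mul_sum]
  apply sum_congr rfl
  intro k _
  rcases k with _ | k
  · rw [sj_zero hm]
    simp
  · have h1 := ch_succ (x - 1) k
    have h2 := ch_rel (x - 1) (k + 1)
    rw [show x - 1 - 1 = x - 2 by ring] at h1 h2
    rw [Nat.add_sub_cancel]
    push_cast at h2 ⊢
    have h3 : (x - 1) * (ch (x - 2) (k + 1) * (x - (k + 1) - 1) + ch (x - 2) k * (x - (k + 1)))
        = ch (x - 1) (k + 1) * ((x - 1) * (x - (k + 1) - 1) + (k + 1)) := by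
      calc (x - 1) * (ch (x - 2) (k + 1) * (x - (k + 1) - 1) + ch (x - 2) k * (x - (k + 1)))
          = ((x - 1) * ch (x - 2) (k + 1)) * (x - (k + 1) - 1)
            + ((x - 1) * ch (x - 2) k) * (x - (k + 1)) := by ring
        _ = _ := by rw [h2, ← h1]; ring
    calc _ = (sj m (k + 1) : ℝ) * ((x - 1) * (ch (x - 2) (k + 1) * (x - (k + 1) - 1)
            + ch (x - 2) k * (x - (k + 1)))) * (x - (k + 1)) ^ n := by ring
      _ = _ := by rw [h3]; ring

theorem no_common (m : ℕ) (hm : 3 ≤ m) : ∀ᶠ n : ℕ in Filter.atTop, ∀ x : ℝ, 2 ≤ x →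
    ¬ (fA m n x = 0 ∧ fB m n x = 0) := by
  filter_upwards [nocommon m hm (fun k => sj m k) (fun k => Nat.cast_nonneg _)
    (by exact_mod_cast sj_one (by omega)) (by exact_mod_cast sj_self m)] with n hn x hx ⟨hA, hB⟩
  have hBr := fB_rel m n (by omega) x
  rw [hB, mul_zero] at hBr
  rw [fA] at hA
  have h1 : ∑ k ∈ range (m + 1), (k : ℝ) * (sj m k * ch (x - 1) k * (x - k) ^ n) = 0 := by
    have : ∑ k ∈ range (m + 1), (k : ℝ) * (sj m k * ch (x - 1) k * (x - k) ^ n)
        = ∑ k ∈ range (m + 1), sj m k * ch (x - 1) k * ((x - 1) * (x - k - 1) + k) * (x - k) ^ n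
        - (x - 1) * ∑ k ∈ range (m + 1), sj m k * ch (x - 1) k * (x - k - 1) * (x - k) ^ n := by
      rw [mul_sum, ← sum_sub_distrib]
      exact sum_congr rfl fun k _ => by ring
    rw [this, ← hBr, hA]
    ring
  have h2 : (x - 1) * ∑ k ∈ range (m + 1), (sj m k * ch (x - 1) k * (x - k) ^ n) = 0 := by
    have : (x - 1) * ∑ k ∈ range (m + 1), (sj m k * ch (x - 1) k * (x - k) ^ n)
        = ∑ k ∈ range (m + 1), sj m k * ch (x - 1) k * (x - k - 1) * (x - k) ^ n
        + ∑ k ∈ range (m + 1), (k : ℝ) * (sj m k * ch (x - 1) k * (x - k) ^ n) := by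
      rw [mul_sum, ← sum_add_distrib]
      exact sum_congr rfl fun k _ => by ring
    rw [this, h1, hA]
    ring
  rcases mul_eq_zero.1 h2 with h | h
  · linarith
  · exact hn x hx ⟨h, h1⟩

theorem sign_fact (N : ℕ) : 0 < ch ((N : ℝ) + 5 / 2 - 1) (2 * N + 8) *
    ((N : ℝ) + 5 / 2 - ((2 * N + 8 : ℕ) : ℝ)) ^ N := by
  have hsplit : ∏ i ∈ range (2 * N + 8), ((N : ℝ) + 5 / 2 - 1 - i)
      = (∏ i ∈ range (N + 2), ((N : ℝ) + 5 / 2 - 1 - i)) *
        ((-1) ^ (N + 6) * ∏ j ∈ range (N + 6), ((j : ℝ) + 1 / 2)) := by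
    rw [show 2 * N + 8 = (N + 2) + (N + 6) by ring, prod_range_add]
    congr 1
    rw [← card_range (N + 6), ← prod_const, card_range, ← prod_mul_distrib]
    exact prod_congr rfl fun j _ => by push_cast; ring
  have hpow : ((N : ℝ) + 5 / 2 - ((2 * N + 8 : ℕ) : ℝ)) ^ N = (-1) ^ N * ((N : ℝ) + 11 / 2) ^ N := by
    rw [← mul_pow]
    congr 1
    push_cast
    ring
  rw [ch, hsplit, hpow]
  have h1 : 0 < ∏ i ∈ range (N + 2), ((N : ℝ) + 5 / 2 - 1 - i) := by
    apply prod_pos
    intro i hi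
    rw [mem_range] at hi
    have : (i : ℝ) + 1 ≤ N + 2 := by exact_mod_cast hi
    linarith
  have h2 : 0 < ∏ j ∈ range (N + 6), ((j : ℝ) + 1 / 2) := prod_pos fun j _ => by positivity
  have h3 : (-1 : ℝ) ^ (N + 6) * (-1) ^ N = 1 := by
    rw [← pow_add, show N + 6 + N = 2 * (N + 3) by ring, pow_mul]
    simp
  have h4 : 0 < ((N : ℝ) + 11 / 2) ^ N := by positivity
  have hf : (0 : ℝ) < (2 * N + 8).factorial := by exact_mod_cast Nat.factorial_pos _
  calc (0 : ℝ) < (∏ i ∈ range (N + 2), ((N : ℝ) + 5 / 2 - 1 - i)) *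
        (∏ j ∈ range (N + 6), ((j : ℝ) + 1 / 2)) * ((N : ℝ) + 11 / 2) ^ N / (2 * N + 8).factorial *
        ((-1 : ℝ) ^ (N + 6) * (-1) ^ N) := by rw [h3]; positivity
    _ = _ := by ring

/-- parameters for which both counting functions are negative far to the right -/
theorem params (N : ℕ) : ∃ n : ℕ, (∀ x : ℝ, 2 ≤ x →
      ¬ (fA (2 * N + 8) n x = 0 ∧ fB (2 * N + 8) n x = 0)) ∧
    fA (2 * N + 8) n ((N : ℝ) + 5 / 2) < 0 ∧ fB (2 * N + 8) n ((N : ℝ) + 5 / 2) < 0 := by
  have hN0 : (0 : ℝ) ≤ N := Nat.cast_nonneg N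
  obtain ⟨m, hm⟩ : ∃ m, m = 2 * N + 8 := ⟨_, rfl⟩
  obtain ⟨x, hx⟩ : ∃ x, x = (N : ℝ) + 5 / 2 := ⟨_, rfl⟩
  have hmr : (m : ℝ) = 2 * N + 8 := by rw [hm]; push_cast; ring
  have hsg := sign_fact N
  rw [← hm, ← hx] at hsg
  have hdist : ∀ k < m, |x - k| < m - x := by
    intro k hk
    have h1 : (k : ℝ) + 1 ≤ m := by exact_mod_cast hk
    have h2 : (0 : ℝ) ≤ k := Nat.cast_nonneg k
    rw [abs_lt]
    constructor <;> linarith
  have hxm : 0 < m - x := by linarith
  have hs : (0 : ℝ) < sj m m := by exact_mod_cast sj_self m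
  have hAe := eventually_neg m N (fun k => sj m k * ch (x - 1) k * (x - k - 1)) x hdist hxm (by
    have h1 : x - m - 1 < 0 := by linarith
    calc (sj m m : ℝ) * ch (x - 1) m * (x - m - 1) * (x - m) ^ N
        = (sj m m * (ch (x - 1) m * (x - m) ^ N)) * (x - m - 1) := by ring
      _ < 0 := mul_neg_of_pos_of_neg (mul_pos hs hsg) h1)
  have hBe := eventually_neg m N (fun k => sj m k * ch (x - 1) k * ((x - 1) * (x - k - 1) + k)) x
    hdist hxm (by
    have h1 : (x - 1) * (x - m - 1) + m < 0 := by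
      rw [hmr, hx]
      nlinarith
    calc (sj m m : ℝ) * ch (x - 1) m * ((x - 1) * (x - m - 1) + m) * (x - m) ^ N
        = (sj m m * (ch (x - 1) m * (x - m) ^ N)) * ((x - 1) * (x - m - 1) + m) := by ring
      _ < 0 := mul_neg_of_pos_of_neg (mul_pos hs hsg) h1)
  have htend : Filter.Tendsto (fun l : ℕ => 2 * l + N) Filter.atTop Filter.atTop := by
    apply Filter.tendsto_atTop_mono (fun l => (by omega : l ≤ 2 * l + N)) Filter.tendsto_id
  have hC := htend.eventually (no_common m (by omega))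
  obtain ⟨l, hl1, hl2, hl3⟩ := (hAe.and (hBe.and hC)).exists
  refine ⟨2 * l + N, ?_⟩
  rw [← hm, ← hx]
  refine ⟨hl3, hl1, ?_⟩
  have hr := fB_rel m (2 * l + N) (by omega) x
  have : (x - 1) * fB m (2 * l + N) x < 0 := by rw [hr]; exact hl2
  by_contra hc
  rw [not_lt] at hc
  have : 0 ≤ (x - 1) * fB m (2 * l + N) x := mul_nonneg (by linarith) hc
  linarith

/-! ### Chromatic and orbital chromatic polynomials -/

/-- proper colourings of `G` with `q` colours -/
def PropCol {V : Type*} (G : SimpleGraph V) (q : ℕ) : Type _ :=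
  {c : V → Fin q // ∀ x y, G.Adj x y → c x ≠ c y}

/-- two proper colourings are equivalent if an element of the group `A` carries one to the other -/
def orbRel {V : Type*} (G : SimpleGraph V) (A : Subgroup (G ≃g G)) (q : ℕ) :
    Setoid (PropCol G q) where
  r c c' := ∃ g ∈ A, ∀ x, c'.1 x = c.1 (g x)
  iseqv := ⟨fun c => ⟨1, A.one_mem, fun _ => rfl⟩,
    fun {c c'} ⟨g, hg, h⟩ => ⟨g⁻¹, A.inv_mem hg, fun x => by
      rw [h]
      exact congrArg c.1 (g.apply_symm_apply x).symm⟩,
    fun {c c' c''} ⟨g, hg, h⟩ ⟨g', hg', h'⟩ => ⟨g * g', A.mul_mem hg hg', fun x => by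
      rw [h', h]
      rfl⟩⟩

/-- `P` is the chromatic polynomial of `G` -/
def IsChromatic {V : Type*} (G : SimpleGraph V) (P : Polynomial ℝ) : Prop :=
  ∀ q : ℕ, 0 < q → P.eval (q : ℝ) = Nat.card (PropCol G q)

/-- `P` is the orbital chromatic polynomial of `G` for the group `A` of automorphisms -/
def IsOrbital {V : Type*} (G : SimpleGraph V) (A : Subgroup (G ≃g G)) (P : Polynomial ℝ) : Prop :=
  ∀ q : ℕ, 0 < q → P.eval (q : ℝ) = Nat.card (Quotient (orbRel G A q))

/-! ### The graph -/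

/-- The vertices: `inl false` is `u`, `inl true` is `v`, and `inr (i, _)` are those of copy `i`. -/
abbrev Vx (m n p : ℕ) : Type := Bool ⊕ (Fin p × (Fin m ⊕ Option (Fin n)))

/-- the edges, each in one direction -/
def E {m n p : ℕ} : Vx m n p → Vx m n p → Prop
  | .inl true, .inr (_, .inl _) => True
  | .inl false, .inr (_, .inr none) => True
  | .inr (i, .inl _), .inr (j, .inr _) => i = j
  | _, _ => False

/-- the graph -/
def Gr (m n p : ℕ) : SimpleGraph (Vx m n p) := SimpleGraph.fromRel E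

/-- the colours in copy `i` -/
def loc {m n p q : ℕ} (c : Vx m n p → Fin q) (i : Fin p) :
    (Fin m → Fin q) × (Option (Fin n) → Fin q) :=
  (fun j => c (.inr (i, .inl j)), fun t => c (.inr (i, .inr t)))

theorem proper_iff {m n p q : ℕ} (c : Vx m n p → Fin q) :
    (∀ x y, (Gr m n p).Adj x y → c x ≠ c y) ↔
      ∀ i, loc c i ∈ Ext m n q (c (.inl false)) (c (.inl true)) := by
  constructor
  · intro h i
    rw [Ext, mem_filter]
    refine ⟨mem_univ _, fun j => ?_, ?_, fun j t => ?_⟩
    · exact (h (.inl true) (.inr (i, .inl j)) ⟨by simp, Or.inl trivial⟩).symm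
    · exact (h (.inl false) (.inr (i, .inr none)) ⟨by simp, Or.inl trivial⟩).symm
    · exact h (.inr (i, .inl j)) (.inr (i, .inr t)) ⟨by simp, Or.inl rfl⟩
  · intro h
    have key : ∀ x y : Vx m n p, E x y → c x ≠ c y := by
      rintro ((_ | _) | ⟨i, j | s⟩) ((_ | _) | ⟨i', j' | (_ | t)⟩) hxy
      all_goals first | exact False.elim hxy | skip
      · exact ((mem_filter.1 (h i')).2.2.1).symm
      · exact ((mem_filter.1 (h i')).2.1 j').symm
      · obtain rfl : i = i' := hxy
        exact (mem_filter.1 (h i)).2.2.2 j none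
      · obtain rfl : i = i' := hxy
        exact (mem_filter.1 (h i)).2.2.2 j (some t)
    rintro x y ⟨_, hE | hE⟩
    · exact key x y hE
    · exact (key y x hE).symm

/-- colour classes of the set of all (colour of `u`, colour of `v`, colours of the copies) -/
def colEquiv (m n p q : ℕ) : PropCol (Gr m n p) q ≃
    (Σ ab : Fin q × Fin q, (Fin p → {y // y ∈ Ext m n q ab.1 ab.2})) where
  toFun c := ⟨(c.1 (.inl false), c.1 (.inl true)), fun i => ⟨loc c.1 i, (proper_iff c.1).1 c.2 i⟩⟩
  invFun d := ⟨fun x => match x with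
      | .inl false => d.1.1
      | .inl true => d.1.2
      | .inr (i, .inl j) => (d.2 i).1.1 j
      | .inr (i, .inr t) => (d.2 i).1.2 t,
    (proper_iff _).2 fun i => (d.2 i).2⟩
  left_inv c := by
    apply Subtype.ext
    funext x
    rcases x with (_ | _) | ⟨i, j | t⟩ <;> rfl
  right_inv d := by
    rcases d with ⟨⟨a, b⟩, h⟩
    rfl

theorem sum_diag (q : ℕ) (s t : ℝ) : ∑ ab : Fin q × Fin q, (if ab.1 = ab.2 then s else t)
    = q * s + q * (q - 1) * t := by
  rw [Fintype.sum_prod_type]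
  have : ∀ a : Fin q, ∑ b : Fin q, (if a = b then s else t) = s + (q - 1) * t := by
    intro a
    have h1 : ∀ b : Fin q, (if a = b then s else t) = t + if a = b then (s - t) else 0 := by
      intro b
      split_ifs <;> ring
    rw [sum_congr rfl (fun b _ => h1 b), sum_add_distrib, sum_ite_eq, if_pos (mem_univ a),
      sum_const, card_univ, Fintype.card_fin, nsmul_eq_mul]
    ring
  rw [sum_congr rfl (fun a _ => this a), sum_const, card_univ, Fintype.card_fin, nsmul_eq_mul]
  ring

theorem card_propCol (m n p q : ℕ) (hm : 0 < m) : (Nat.card (PropCol (Gr m n p) q) : ℝ)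
    = q * fA m n q ^ p + q * (q - 1) * fB m n q ^ p := by
  rw [Nat.card_congr (colEquiv m n p q), Nat.card_sigma, ← sum_diag]
  push_cast
  apply sum_congr rfl
  rintro ⟨a, b⟩ _
  rw [Nat.card_fun, Nat.card_eq_fintype_card, Nat.card_eq_fintype_card, Fintype.card_fin,
    Fintype.card_coe, Nat.cast_pow]
  by_cases h : a = b
  · subst h
    rw [if_pos rfl, card_X_same]
  · rw [if_neg h, card_X_diff m n q hm a b h]

/-! ### The group -/

/-- permuting the copies -/
def perm (m n p : ℕ) (σ : Equiv.Perm (Fin p)) : Gr m n p ≃g Gr m n p where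
  toEquiv := (Equiv.refl Bool).sumCongr (σ.prodCongr (Equiv.refl _))
  map_rel_iff' := by
    have h : ∀ x y : Vx m n p, E ((Equiv.refl Bool).sumCongr (σ.prodCongr (Equiv.refl _)) x)
        ((Equiv.refl Bool).sumCongr (σ.prodCongr (Equiv.refl _)) y) ↔ E x y := by
      rintro ((_ | _) | ⟨i, j | s⟩) ((_ | _) | ⟨i', j' | (_ | t)⟩) <;> simp [E]
    intro x y
    simp only [Gr, SimpleGraph.fromRel_adj, h]
    rw [(Equiv.injective _).ne_iff]

/-- the group of all permutations of the copies -/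
def grp (m n p : ℕ) : Subgroup (Gr m n p ≃g Gr m n p) where
  carrier := {g | ∃ σ, g = perm m n p σ}
  one_mem' := ⟨1, by
    ext x
    rcases x with (_ | _) | ⟨i, j | s⟩ <;> rfl⟩
  mul_mem' := by
    rintro _ _ ⟨σ, rfl⟩ ⟨τ, rfl⟩
    refine ⟨σ * τ, ?_⟩
    ext x
    rcases x with (_ | _) | ⟨i, j | s⟩ <;> rfl
  inv_mem' := by
    rintro _ ⟨σ, rfl⟩
    refine ⟨σ⁻¹, ?_⟩
    ext x
    rcases x with (_ | _) | ⟨i, j | s⟩ <;> rfl

theorem exists_perm {α : Type*} [DecidableEq α] {p : ℕ} (f g : Fin p → α)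
    (h : univ.val.map f = univ.val.map g) : ∃ σ : Equiv.Perm (Fin p), ∀ i, g (σ i) = f i := by
  have hc : ∀ a, Fintype.card {i // f i = a} = Fintype.card {i // g i = a} := by
    intro a
    have := congrArg (Multiset.count a) h
    rw [Multiset.count_map, Multiset.count_map] at this
    rw [Fintype.card_subtype, Fintype.card_subtype]
    simpa [Finset.card, eq_comm] using this
  let e : ∀ a, {i // f i = a} ≃ {i // g i = a} := fun a => Fintype.equivOfCardEq (hc a)
  refine ⟨(Equiv.sigmaFiberEquiv f).symm.trans ((Equiv.sigmaCongrRight e).trans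
    (Equiv.sigmaFiberEquiv g)), fun i => ?_⟩
  exact (e (f i) ⟨i, rfl⟩).2

theorem card_multiset {α : Type*} [Fintype α] [DecidableEq α] (s : Finset α) (p : ℕ) :
    Nat.card {t : Multiset α // t.card = p ∧ ∀ y ∈ t, y ∈ s} = s.card.multichoose p := by
  rw [← Fintype.card_coe s, ← Sym.card_sym_eq_multichoose, ← Nat.card_eq_fintype_card]
  refine (Nat.card_congr (Equiv.ofBijective (fun t : Sym s p =>
    (⟨t.1.map Subtype.val, by rw [Multiset.card_map, t.2], by
      intro y hy
      obtain ⟨z, _, rfl⟩ := Multiset.mem_map.1 hy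
      exact z.2⟩ : {t : Multiset α // t.card = p ∧ ∀ y ∈ t, y ∈ s})) ⟨?_, ?_⟩)).symm
  · intro t t' h
    have := congrArg Subtype.val h
    exact Subtype.ext (Multiset.map_injective Subtype.val_injective this)
  · rintro ⟨t, ht, hs⟩
    refine ⟨⟨t.attach.map fun y => ⟨y.1, hs y.1 y.2⟩, by rw [Multiset.card_map,
      Multiset.card_attach, ht]⟩, ?_⟩
    apply Subtype.ext
    show Multiset.map Subtype.val (Multiset.map _ t.attach) = t
    rw [Multiset.map_map]
    exact Multiset.attach_map_val t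

/-- the invariant of an orbit -/
def inv (m n p q : ℕ) (c : PropCol (Gr m n p) q) : Σ ab : Fin q × Fin q,
    {t : Multiset ((Fin m → Fin q) × (Option (Fin n) → Fin q)) //
      t.card = p ∧ ∀ y ∈ t, y ∈ Ext m n q ab.1 ab.2} :=
  ⟨(c.1 (.inl false), c.1 (.inl true)), ⟨univ.val.map (loc c.1), by simp, by
    intro y hy
    obtain ⟨i, _, rfl⟩ := Multiset.mem_map.1 hy
    exact (proper_iff c.1).1 c.2 i⟩⟩

theorem inv_eq_iff {m n p q : ℕ} (c c' : PropCol (Gr m n p) q) :
    inv m n p q c = inv m n p q c' ↔ orbRel (Gr m n p) (grp m n p) q c c' := by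
  classical
  constructor
  · intro h
    have h1 := congrArg (fun d : (Σ ab : Fin q × Fin q,
      {t : Multiset ((Fin m → Fin q) × (Option (Fin n) → Fin q)) //
        t.card = p ∧ ∀ y ∈ t, y ∈ Ext m n q ab.1 ab.2}) => (d.1, d.2.1)) h
    simp only [inv, Prod.mk.injEq] at h1
    obtain ⟨⟨ha, hb⟩, hm⟩ := h1
    obtain ⟨σ, hσ⟩ := exists_perm _ _ hm.symm
    refine ⟨perm m n p σ, ⟨σ, rfl⟩, ?_⟩
    rintro ((_ | _) | ⟨i, j | s⟩)
    · exact ha.symm
    · exact hb.symm
    · exact (congrFun (congrArg Prod.fst (hσ i)) j).symm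
    · exact (congrFun (congrArg Prod.snd (hσ i)) s).symm
  · rintro ⟨_, ⟨σ, rfl⟩, h⟩
    have ha : c'.1 (.inl false) = c.1 (.inl false) := h _
    have hb : c'.1 (.inl true) = c.1 (.inl true) := h _
    have hl : ∀ i, loc c'.1 i = loc c.1 (σ i) := by
      intro i
      ext j
      · exact congrArg Fin.val (h (.inr (i, .inl j)))
      · exact congrArg Fin.val (h (.inr (i, .inr j)))
    have hm : univ.val.map (loc c.1) = univ.val.map (loc c'.1) := by
      rw [show loc c'.1 = loc c.1 ∘ σ from funext hl, ← Multiset.map_map]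
      congr 1
      have := congrArg Finset.val (Finset.map_univ_equiv σ)
      rw [Finset.map_val] at this
      exact this.symm
    have forget : ∀ d d' : (Σ ab : Fin q × Fin q,
      {t : Multiset ((Fin m → Fin q) × (Option (Fin n) → Fin q)) //
        t.card = p ∧ ∀ y ∈ t, y ∈ Ext m n q ab.1 ab.2}), d.1 = d'.1 → d.2.1 = d'.2.1 → d = d' := by
      rintro ⟨ab, t, ht⟩ ⟨ab', t', ht'⟩ h1 h2
      simp only at h1 h2
      subst h1
      subst h2
      rfl
    refine forget _ _ ?_ hm
    show (c.1 (.inl false), c.1 (.inl true)) = (c'.1 (.inl false), c'.1 (.inl true))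
    rw [ha, hb]

theorem inv_surj {m n p q : ℕ} : Function.Surjective (inv m n p q) := by
  rintro ⟨⟨a, b⟩, t, ht, hs⟩
  obtain ⟨l, rfl⟩ : ∃ l : List ((Fin m → Fin q) × (Option (Fin n) → Fin q)),
      (l : Multiset _) = t := Quot.exists_rep t
  rw [Multiset.coe_card] at ht
  subst ht
  refine ⟨(colEquiv m n l.length q).symm ⟨(a, b), fun i => ⟨l.get i, hs _ (by
    rw [Multiset.mem_coe]
    exact List.get_mem l i)⟩⟩, ?_⟩
  have hm : univ.val.map (fun i => l.get i) = (l : Multiset _) := by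
    have : (univ : Finset (Fin l.length)).val = (List.finRange l.length : Multiset _) := rfl
    rw [this, Multiset.map_coe, List.map_get_finRange]
  have forget : ∀ d d' : (Σ ab : Fin q × Fin q,
      {t : Multiset ((Fin m → Fin q) × (Option (Fin n) → Fin q)) //
        t.card = l.length ∧ ∀ y ∈ t, y ∈ Ext m n q ab.1 ab.2}), d.1 = d'.1 → d.2.1 = d'.2.1 → d = d' := by
      rintro ⟨ab, t, ht⟩ ⟨ab', t', ht'⟩ h1 h2
      simp only at h1 h2
      subst h1
      subst h2
      rfl
  exact forget _ _ rfl hm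

theorem card_orbits (m n p q : ℕ) (hm : 0 < m) :
    (Nat.card (Quotient (orbRel (Gr m n p) (grp m n p) q)) : ℝ)
    = q * mc (fA m n q) p + q * (q - 1) * mc (fB m n q) p := by
  have e : Quotient (orbRel (Gr m n p) (grp m n p) q) ≃ _ :=
    Equiv.ofBijective (Quotient.lift (inv m n p q) fun c c' h => (inv_eq_iff c c').2 h)
      ⟨by
        rintro ⟨c⟩ ⟨c'⟩ h
        exact Quotient.sound ((inv_eq_iff c c').1 h),
      by
        intro d
        obtain ⟨c, hc⟩ := inv_surj d
        exact ⟨Quotient.mk _ c, hc⟩⟩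
  have hmc : ∀ N : ℕ, (N.multichoose p : ℝ) = mc N p := by
    intro N
    rw [mc, Nat.multichoose_eq]
    have h1 := Nat.ascFactorial_eq_factorial_mul_choose' N p
    rw [Nat.ascFactorial_eq_prod_range] at h1
    have h2 : (∏ i ∈ range p, ((N : ℝ) + i)) = p.factorial * ((N + p - 1).choose p : ℕ) := by
      exact_mod_cast h1
    rw [h2]
    have : (p.factorial : ℝ) ≠ 0 := by exact_mod_cast Nat.factorial_ne_zero p
    field_simp
  have hfin : ∀ ab : Fin q × Fin q, Finite {t : Multiset ((Fin m → Fin q) × (Option (Fin n) → Fin q)) //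
      t.card = p ∧ ∀ y ∈ t, y ∈ Ext m n q ab.1 ab.2} := by
    intro ab
    have : Finite {t : Multiset ((Fin m → Fin q) × (Option (Fin n) → Fin q)) // t.card = p} :=
      inferInstanceAs (Finite (Sym _ p))
    exact Finite.of_injective (fun t => (⟨t.1, t.2.1⟩ : {t : Multiset _ // t.card = p}))
      fun t t' h => Subtype.ext (Subtype.mk.inj h)
  rw [Nat.card_congr e, Nat.card_sigma, ← sum_diag]
  push_cast
  apply sum_congr rfl
  rintro ⟨a, b⟩ _
  rw [card_multiset, hmc]
  by_cases h : a = b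
  · subst h
    rw [if_pos rfl, card_X_same]
  · rw [if_neg h, card_X_diff m n q hm a b h]

/-! ### The polynomials and the theorem -/

open Polynomial in
/-- `ch (x - c) k` as a polynomial in `x` -/
noncomputable def chP (c : ℝ) (k : ℕ) : ℝ[X] :=
  C ((k.factorial : ℝ)⁻¹) * ∏ i ∈ range k, (X - C (c + i))

theorem chP_eval (c : ℝ) (k : ℕ) (x : ℝ) : (chP c k).eval x = ch (x - c) k := by
  rw [chP, ch, Polynomial.eval_mul, Polynomial.eval_C, Polynomial.eval_prod]
  simp only [Polynomial.eval_sub, Polynomial.eval_X, Polynomial.eval_C]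
  rw [inv_mul_eq_div]
  congr 1
  exact prod_congr rfl fun i _ => by ring

open Polynomial in
/-- `fA` as a polynomial -/
noncomputable def pA (m n : ℕ) : ℝ[X] :=
  ∑ k ∈ range (m + 1), C (sj m k : ℝ) * chP 1 k * (X - C (k : ℝ) - 1) * (X - C (k : ℝ)) ^ n

open Polynomial in
/-- `fB` as a polynomial -/
noncomputable def pB (m n : ℕ) : ℝ[X] :=
  ∑ k ∈ range (m + 1), C (sj m k : ℝ) * (chP 2 k * (X - C (k : ℝ) - 1)
    + chP 2 (k - 1) * (X - C (k : ℝ))) * (X - C (k : ℝ)) ^ n

theorem pA_eval (m n : ℕ) (x : ℝ) : (pA m n).eval x = fA m n x := by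
  rw [pA, fA, Polynomial.eval_finsetSum]
  apply sum_congr rfl
  intro k _
  simp [chP_eval]

theorem pB_eval (m n : ℕ) (x : ℝ) : (pB m n).eval x = fB m n x := by
  rw [pB, fB, Polynomial.eval_finsetSum]
  apply sum_congr rfl
  intro k _
  simp [chP_eval]

open Polynomial in
/-- the chromatic polynomial of the graph -/
noncomputable def pP (m n p : ℕ) : ℝ[X] := X * pA m n ^ p + X * (X - 1) * pB m n ^ p

open Polynomial in
/-- `mc F p` for a polynomial `F` -/
noncomputable def mcP (F : ℝ[X]) (p : ℕ) : ℝ[X] :=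
  C ((p.factorial : ℝ)⁻¹) * ∏ i ∈ range p, (F + C (i : ℝ))

theorem mcP_eval (F : Polynomial ℝ) (p : ℕ) (x : ℝ) : (mcP F p).eval x = mc (F.eval x) p := by
  rw [mcP, mc, Polynomial.eval_mul, Polynomial.eval_C, Polynomial.eval_prod]
  simp only [Polynomial.eval_add, Polynomial.eval_C]
  rw [inv_mul_eq_div]

open Polynomial in
/-- the orbital chromatic polynomial of the graph -/
noncomputable def pQ (m n p : ℕ) : ℝ[X] :=
  X * mcP (pA m n) p + X * (X - 1) * mcP (pB m n) p

theorem pP_eval (m n p : ℕ) (x : ℝ) :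
    (pP m n p).eval x = x * fA m n x ^ p + x * (x - 1) * fB m n x ^ p := by
  simp [pP, pA_eval, pB_eval]

theorem pQ_eval (m n p : ℕ) (x : ℝ) :
    (pQ m n p).eval x = x * mc (fA m n x) p + x * (x - 1) * mc (fB m n x) p := by
  simp [pQ, pA_eval, pB_eval, mcP_eval]

theorem isChromatic (m n p : ℕ) (hm : 0 < m) : IsChromatic (Gr m n p) (pP m n p) :=
  fun q _ => by rw [pP_eval, card_propCol m n p q hm]

theorem isOrbital (m n p : ℕ) (hm : 0 < m) : IsOrbital (Gr m n p) (grp m n p) (pQ m n p) :=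
  fun q _ => by rw [pQ_eval, card_orbits m n p q hm]

/-- with two colours, `v` and one side of each copy get different colours -/
theorem X_nonempty (m n q : ℕ) (hq : 3 ≤ q) : (Ext m n q ⟨0, by omega⟩ ⟨0, by omega⟩).Nonempty := by
  refine ⟨(fun _ => ⟨1, by omega⟩, fun _ => ⟨2, by omega⟩), ?_⟩
  rw [Ext, mem_filter]
  refine ⟨mem_univ _, fun j h => ?_, fun h => ?_, fun j t h => ?_⟩
  all_goals
    have := congrArg Fin.val h
    simp at this

theorem fA_pos (m n q : ℕ) (hq : 3 ≤ q) : 0 < fA m n q := by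
  rw [← card_X_same m n q ⟨0, by omega⟩]
  exact_mod_cast (X_nonempty m n q hq).card_pos

theorem pQ_pos (m n p q : ℕ) (hm : 0 < m) (hq : 3 ≤ q) : 0 < (pQ m n p).eval (q : ℝ) := by
  rw [pQ_eval]
  have hA := fA_pos m n q hq
  have hmcA : 0 < mc (fA m n q) p := by
    rw [mc]
    apply div_pos
    · exact prod_pos fun i _ => by positivity
    · exact_mod_cast Nat.factorial_pos p
  have hB : 0 ≤ fB m n q := by
    have hab : (⟨0, by omega⟩ : Fin q) ≠ ⟨1, by omega⟩ := by
      intro h
      have := congrArg Fin.val h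
      simp at this
    rw [← card_X_diff m n q hm ⟨0, by omega⟩ ⟨1, by omega⟩ hab]
    exact Nat.cast_nonneg _
  have hmcB : 0 ≤ mc (fB m n q) p := by
    rw [mc]
    apply div_nonneg
    · exact prod_nonneg fun i _ => by positivity
    · exact_mod_cast (Nat.factorial_pos p).le
  have hq1 : (3 : ℝ) ≤ q := by exact_mod_cast hq
  have h1 : 0 < (q : ℝ) * mc (fA m n q) p := mul_pos (by linarith) hmcA
  have h2 : 0 ≤ (q : ℝ) * (q - 1) * mc (fB m n q) p :=
    mul_nonneg (mul_nonneg (by linarith) (by linarith)) hmcB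
  linarith

/-- **Orbital chromatic roots can exceed all chromatic roots by an arbitrary amount.** -/
theorem result : ∀ N : ℝ, 0 < N → ∃ (V : Type) (_ : Fintype V) (_ : Nonempty V)
    (G : SimpleGraph V) (A : Subgroup (G ≃g G)) (P Q : Polynomial ℝ) (lam r : ℝ),
      IsChromatic G P ∧ IsOrbital G A Q ∧ IsGreatest {x : ℝ | P.eval x = 0} lam ∧
      Q.eval r = 0 ∧ lam + N ≤ r := by
  intro N0 hN0
  obtain ⟨N, hN⟩ := exists_nat_gt N0
  obtain ⟨n, hno, hAb, hBb⟩ := params N
  obtain ⟨m, hm⟩ : ∃ m, m = 2 * N + 8 := ⟨_, rfl⟩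
  rw [← hm] at hno hAb hBb
  have hm0 : 0 < m := by omega
  have hNr : (0 : ℝ) ≤ N := Nat.cast_nonneg N
  have hcA : Continuous (fA m n) := by
    rw [show fA m n = fun x => (pA m n).eval x from funext fun x => (pA_eval m n x).symm]
    exact (pA m n).continuous
  have hcB : Continuous (fB m n) := by
    rw [show fB m n = fun x => (pB m n).eval x from funext fun x => (pB_eval m n x).symm]
    exact (pB m n).continuous
  obtain ⟨x, hx, hcase⟩ := crossing (fA m n) (fB m n) hcA hcB ((N : ℝ) + 5 / 2) ((N + 3 : ℕ) : ℝ)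
    (by push_cast; linarith) hAb hBb (fA_pos m n (N + 3) (by omega)).le
    (fun y hy => hno y (by linarith))
  have hx2 : 2 < x := by linarith
  have hp : ∃ p, Even p ∧ 0 < p ∧ x * mc (fA m n x) p + x * (x - 1) * mc (fB m n x) p < 0 := by
    rcases hcase with ⟨h1, h2, h3⟩ | ⟨h1, h2, h3⟩
    · exact exists_even _ _ _ _ h1 h2 h3 (by linarith) (mul_pos (by linarith) (by linarith))
    · obtain ⟨p, hpe, hp0, hp⟩ := exists_even _ _ _ _ h1 h2 h3
        (show 0 < x * (x - 1) from mul_pos (by linarith) (by linarith)) (show 0 < x by linarith)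
      exact ⟨p, hpe, hp0, by linarith⟩
  obtain ⟨p, hpe, hp0, hneg⟩ := hp
  -- the chromatic polynomial is positive to the right of `2`
  have hPpos : ∀ y : ℝ, 2 ≤ y → 0 < (pP m n p).eval y := by
    intro y hy
    rw [pP_eval]
    have hA := hpe.pow_nonneg (fA m n y)
    have hB := hpe.pow_nonneg (fB m n y)
    have hy1 : 0 < y * (y - 1) := mul_pos (by linarith) (by linarith)
    by_cases h : fA m n y = 0
    · have hb : fB m n y ≠ 0 := fun hb => hno y hy ⟨h, hb⟩
      have : 0 < fB m n y ^ p := hpe.pow_pos hb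
      have h1 := mul_pos hy1 this
      have h2 : 0 ≤ y * fA m n y ^ p := mul_nonneg (by linarith) hA
      linarith
    · have : 0 < fA m n y ^ p := hpe.pow_pos h
      have h1 : 0 < y * fA m n y ^ p := mul_pos (by linarith) this
      have h2 := mul_nonneg hy1.le hB
      linarith
  have hPne : pP m n p ≠ 0 := by
    intro h
    have := hPpos 2 le_rfl
    rw [h] at this
    simp at this
  have hroots : {y : ℝ | (pP m n p).eval y = 0} = ↑(pP m n p).roots.toFinset := by
    ext y
    simp [hPne, Polynomial.IsRoot]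
  have h0 : (0 : ℝ) ∈ (pP m n p).roots.toFinset := by
    have : (0 : ℝ) ∈ {y : ℝ | (pP m n p).eval y = 0} := by
      show (pP m n p).eval 0 = 0
      rw [pP_eval]
      ring
    rw [hroots] at this
    exact_mod_cast this
  obtain ⟨lam, hlam⟩ : ∃ lam, IsGreatest {y : ℝ | (pP m n p).eval y = 0} lam := by
    rw [hroots]
    exact ⟨_, isGreatest_max' _ ⟨0, h0⟩⟩
  have hlam2 : lam < 2 := by
    by_contra hc
    rw [not_lt] at hc
    have := hPpos lam hc
    have h1 : (pP m n p).eval lam = 0 := hlam.1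
    linarith
  -- a root of the orbital chromatic polynomial
  obtain ⟨q, hq⟩ := exists_nat_gt (max x 3)
  have hqx : x < q := (le_max_left _ _).trans_lt hq
  have hq3 : 3 ≤ q := by
    have : (3 : ℝ) < q := (le_max_right _ _).trans_lt hq
    exact_mod_cast this.le
  have hivt := intermediate_value_Icc hqx.le (pQ m n p).continuous.continuousOn
  obtain ⟨r, hr, hr0⟩ := hivt ⟨(by rw [pQ_eval]; exact hneg.le : (pQ m n p).eval x ≤ 0),
    (pQ_pos m n p q hm0 hq3).le⟩
  refine ⟨Vx m n p, inferInstance, inferInstance, Gr m n p, grp m n p, pP m n p, pQ m n p, lam, r,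
    isChromatic m n p hm0, isOrbital m n p hm0, hlam, hr0, ?_⟩
  have := hr.1
  linarith

end Pool.Agent.Results.MP_fefe6a_co.OrbitalSpread
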